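import Mathlib

/-!
# Extension of embeddings of countable fields into large algebraically closed fields
-/

set_option autoImplicit false

open scoped Polynomial

namespace Pool.Agent.Helper7.Lin

universe u v w

/-- Embeddings over a common base ring. -/
theorem ext_aux {R : Type w} [CommRing R] [IsDomain R] {F : Type u} [Field F] [Countable F]
    {Ω : Type v} [Field Ω] [IsAlgClosed Ω] [Uncountable Ω] [Algebra R F] [Algebra R Ω]
    (h1 : Function.Injective (algebraMap R F)) (h2 : Function.Injective (algebraMap R Ω)) :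
    ∃ σ : F →+* Ω, ∀ r : R, σ (algebraMap R F r) = algebraMap R Ω r := by
  have hF : FaithfulSMul R F := (faithfulSMul_iff_algebraMap_injective R F).2 h1
  have hΩ : FaithfulSMul R Ω := (faithfulSMul_iff_algebraMap_injective R Ω).2 h2
  have hR : Countable R := h1.countable
  obtain ⟨s, hs⟩ := exists_isTranscendenceBasis R F
  obtain ⟨t, ht⟩ := exists_isTranscendenceBasis R Ω
  have hinf : Infinite t := by
    by_contra hfin
    rw [not_infinite_iff_finite] at hfin
    have h3 := IsAlgClosed.cardinal_eq_cardinal_transcendence_basis_of_aleph0_lt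
      (fun x : t => (x : Ω)) ht (Cardinal.mk_le_aleph0_iff.2 hR)
      (Cardinal.aleph0_lt_mk_iff.2 inferInstance)
    rw [Cardinal.lift_inj] at h3
    have h4 : Cardinal.aleph0 < Cardinal.mk t := by
      rw [← h3]
      exact Cardinal.aleph0_lt_mk_iff.2 inferInstance
    exact absurd (Cardinal.lt_aleph0_of_finite t) (not_lt.2 h4.le)
  have hsc : Countable s := inferInstance
  obtain ⟨e, he⟩ := (countable_iff_exists_injective s).1 hsc
  let g : s → t := fun x => Infinite.natEmbedding t (e x)
  have hg : Function.Injective g := (Infinite.natEmbedding t).injective.comp he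
  have hx' : AlgebraicIndependent R (fun x : s => ((g x : t) : Ω)) := ht.1.comp g hg
  have hx : AlgebraicIndependent R (fun x : s => (x : F)) := hs.1
  let j : Algebra.adjoin R (Set.range fun x : s => (x : F)) →ₐ[R] Ω :=
    (MvPolynomial.aeval (fun x : s => ((g x : t) : Ω))).comp hx.aevalEquiv.symm.toAlgHom
  have hj : Function.Injective j := by
    have h3 : Function.Injective (MvPolynomial.aeval (R := R) (fun x : s => ((g x : t) : Ω))) := hx'
    exact h3.comp hx.aevalEquiv.symm.injective
  let : Algebra (Algebra.adjoin R (Set.range fun x : s => (x : F))) Ω := j.toRingHom.toAlgebra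
  have hfs : FaithfulSMul (Algebra.adjoin R (Set.range fun x : s => (x : F))) Ω :=
    (faithfulSMul_iff_algebraMap_injective _ Ω).2 hj
  have halg : Algebra.IsAlgebraic (Algebra.adjoin R (Set.range fun x : s => (x : F))) F :=
    hs.isAlgebraic
  let σ : F →ₐ[Algebra.adjoin R (Set.range fun x : s => (x : F))] Ω := IsAlgClosed.lift
  refine ⟨σ.toRingHom, fun r => ?_⟩
  have h3 : algebraMap R F r = algebraMap (Algebra.adjoin R (Set.range fun x : s => (x : F))) F
      (algebraMap R _ r) := rfl
  rw [h3]
  show σ (algebraMap _ F (algebraMap R _ r)) = _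
  rw [σ.commutes]
  exact j.commutes r

/-- extension of embeddings of countable fields into large algebraically closed fields -/
theorem EXT {F : Type u} [Field F] [CharZero F] [Countable F] (ρ : F)
    {Ω : Type v} [Field Ω] [CharZero Ω] [IsAlgClosed Ω] [Uncountable Ω] (β : Ω)
    (h : (Transcendental ℚ ρ ∧ Transcendental ℚ β) ∨
      (IsAlgebraic ℚ ρ ∧ Polynomial.aeval β (minpoly ℚ ρ) = 0)) :
    ∃ σ : F →+* Ω, σ ρ = β := by
  rcases h with ⟨h1, h2⟩ | ⟨h1, h2⟩
  · let a1 : Algebra ℚ[X] F := (Polynomial.aeval ρ).toRingHom.toAlgebra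
    let a2 : Algebra ℚ[X] Ω := (Polynomial.aeval β).toRingHom.toAlgebra
    have i1 : Function.Injective (algebraMap ℚ[X] F) := transcendental_iff_injective.1 h1
    have i2 : Function.Injective (algebraMap ℚ[X] Ω) := transcendental_iff_injective.1 h2
    obtain ⟨σ, hσ⟩ := ext_aux i1 i2
    refine ⟨σ, ?_⟩
    have e1 : algebraMap ℚ[X] F Polynomial.X = ρ := Polynomial.aeval_X ρ
    have e2 : algebraMap ℚ[X] Ω Polynomial.X = β := Polynomial.aeval_X β
    rw [← e1, hσ, e2]
  · have hirr : Irreducible (minpoly ℚ ρ) := minpoly.irreducible h1.isIntegral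
    have hfact : Fact (Irreducible (minpoly ℚ ρ)) := ⟨hirr⟩
    let a1 : Algebra (AdjoinRoot (minpoly ℚ ρ)) F :=
      (AdjoinRoot.lift (algebraMap ℚ F) ρ (minpoly.aeval ℚ ρ)).toAlgebra
    let a2 : Algebra (AdjoinRoot (minpoly ℚ ρ)) Ω :=
      (AdjoinRoot.lift (algebraMap ℚ Ω) β h2).toAlgebra
    obtain ⟨σ, hσ⟩ := ext_aux (R := AdjoinRoot (minpoly ℚ ρ)) (F := F) (Ω := Ω)
      (RingHom.injective _) (RingHom.injective _)
    refine ⟨σ, ?_⟩
    have e1 : algebraMap (AdjoinRoot (minpoly ℚ ρ)) F (AdjoinRoot.root _) = ρ :=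
      AdjoinRoot.lift_root _
    have e2 : algebraMap (AdjoinRoot (minpoly ℚ ρ)) Ω (AdjoinRoot.root _) = β :=
      AdjoinRoot.lift_root _
    rw [← e1, hσ, e2]

end Pool.Agent.Helper7.Lin
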